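import Mathlib
import Pool.Agent.H964.LF.Stm

set_option autoImplicit false

/-!
# LF-GP: bad boxes are rare
-/

namespace Pool.Agent.H195.LF

open Pool.Agent.H964.LF
open MeasureTheory
open scoped ENNReal

/-- the boxes around the sites of one residue class are disjoint -/
lemma inj_key {d n K J R N K0 : ℕ} {τ : Tor d n} (hc : Conf τ K J R) (hK0 : K0 ≤ K)
    (hN : 2 * R + 8 ≤ N * K0) {k k' : Site d} (hk : k ∈ Grid d J) (hk' : k' ∈ Grid d J)
    (hr : ∀ i, k i % N = k' i % N) {z z' : Fin d → ℤ} (hz : bx (R + 2) z) (hz' : bx (R + 2) z')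
    (h : ctr τ K k + zt n z = ctr τ K k' + zt n z') : k = k' ∧ z = z' := by
  have hcoord : ∀ i, k i = k' i ∧ z i = z' i := by
    intro i
    have h1 := congrFun h i
    simp only [Pi.add_apply, ctr, zt] at h1
    have hki : k i < 2 ^ J := by
      have := Fintype.mem_piFinset.1 hk i
      exact Finset.mem_range.1 this
    have hki' : k' i < 2 ^ J := by
      have := Fintype.mem_piFinset.1 hk' i
      exact Finset.mem_range.1 this
    have hs := hc.hs
    have hKp := hc.hK0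
    have a1 : K * k i + K ≤ K * 2 ^ J := by
      calc K * k i + K = K * (k i + 1) := by ring
        _ ≤ K * 2 ^ J := Nat.mul_le_mul_left K hki
    have a2 : K * k' i + K ≤ K * 2 ^ J := by
      calc K * k' i + K = K * (k' i + 1) := by ring
        _ ≤ K * 2 ^ J := Nat.mul_le_mul_left K hki'
    have b1 := hz i
    have b2 := hz' i
    push_cast at b1 b2
    rw [abs_le] at b1 b2
    have e1 : (((2 * n + 2 : ℕ) : ℤ)) ∣
        ((K * k i : ℕ) : ℤ) + z i - (((K * k' i : ℕ) : ℤ) + z' i) := by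
      rw [← ZMod.intCast_zmod_eq_zero_iff_dvd]
      push_cast
      push_cast at h1
      linear_combination h1
    have e2 : ((K * k i : ℕ) : ℤ) + z i - (((K * k' i : ℕ) : ℤ) + z' i) = 0 := by
      refine Int.eq_zero_of_abs_lt_dvd e1 ?_
      rw [abs_lt]
      constructor <;> omega
    have e3 : ((N : ℤ)) ∣ (k i : ℤ) - (k' i : ℤ) := by
      have := (Nat.modEq_iff_dvd.1 (show k' i ≡ k i [MOD N] from (hr i).symm))
      exact this
    have hKN : N * K0 ≤ N * K := Nat.mul_le_mul_left N hK0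
    have e4 : (K : ℤ) * ((k i : ℤ) - (k' i : ℤ)) = 0 := by
      refine Int.eq_zero_of_abs_lt_dvd (m := (K : ℤ) * N) (mul_dvd_mul_left _ e3) ?_
      have e5 : (K : ℤ) * ((k i : ℤ) - (k' i : ℤ)) = z' i - z i := by
        push_cast at e2
        linarith
      rw [e5]
      have e6 : (2 * R + 8 : ℤ) ≤ (K : ℤ) * N := by
        have : 2 * R + 8 ≤ N * K := hN.trans hKN
        have h7 : ((2 * R + 8 : ℕ) : ℤ) ≤ ((N * K : ℕ) : ℤ) := by exact_mod_cast this
        push_cast at h7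
        linarith
      rw [abs_lt]
      constructor <;> linarith
    have hKz : (K : ℤ) ≠ 0 := by exact_mod_cast hKp.ne'
    have e7 : (k i : ℤ) - (k' i : ℤ) = 0 := (mul_eq_zero.1 e4).resolve_left hKz
    have e8 : k i = k' i := by omega
    refine ⟨e8, ?_⟩
    rw [e8] at e2
    linarith
  exact ⟨funext fun i => (hcoord i).1, funext fun i => (hcoord i).2⟩

lemma zt_add_single {d n : ℕ} (z : Fin d → ℤ) (i : Fin d) :
    zt n (z + Pi.single i 1) = zt n z + Pi.single i 1 := by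
  funext j
  simp only [zt, Pi.add_apply]
  by_cases h : j = i
  · subst h
    simp
  · rw [Pi.single_eq_of_ne h, Pi.single_eq_of_ne h]
    simp

/-- one choice of the patterns -/
lemma one_choice (hS : S_STEEP2) {d n K J R N K0 : ℕ} (hd : 1 ≤ d) {τ : Tor d n} (p : Tor d n)
    (hc : Conf τ K J R) (hK0 : K0 ≤ K) (hN : 2 * R + 8 ≤ N * K0) (I : Finset (Site d))
    (hI : I ⊆ Grid d J) (hr : ∀ k ∈ I, ∀ k' ∈ I, ∀ i, k i % N = k' i % N)
    (q : {k // k ∈ I} → Finset ((Fin d → ℤ) × Fin d) × ℝ)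
    (hq : ∀ k, 0 < (q k).2 ∧ (q k).2 ≤ 1 ∧ ∀ e ∈ (q k).1, bx (R + 2) e.1) :
    vl p {ψ | ∀ k : {k // k ∈ I}, ∀ e ∈ (q k).1, 1 - (q k).2 ≤
      |ψ (ctr τ K k.1 + zt n (e.1 + Pi.single e.2 1)) - ψ (ctr τ K k.1 + zt n e.1)|} ≤
      (∏ k, ENNReal.ofReal ((128 * (d : ℝ) ^ 2 * (q k).2) ^ (((q k).1.card : ℝ) / (4 * d)))) *
        vl p Set.univ := by
  classical
  have hn : 1 ≤ n := by
    have := hc.hs
    omega
  set W : Finset (Σ _ : {k // k ∈ I}, (Fin d → ℤ) × Fin d) :=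
    (Finset.univ : Finset {k // k ∈ I}).sigma (fun k => (q k).1) with hW
  set φ : (Σ _ : {k // k ∈ I}, (Fin d → ℤ) × Fin d) → Tor d n × Fin d :=
    fun s => (ctr τ K s.1.1 + zt n s.2.1, s.2.2) with hφ
  have hinj : Set.InjOn φ (W : Set (Σ _ : {k // k ∈ I}, (Fin d → ℤ) × Fin d)) := by
    rintro ⟨k, e⟩ hs ⟨k', e'⟩ hs' h
    rw [Finset.mem_coe, hW, Finset.mem_sigma] at hs hs'
    simp only [hφ, Prod.mk.injEq] at h
    have h1 := inj_key hc hK0 hN (hI k.2) (hI k'.2) (hr k.1 k.2 k'.1 k'.2)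
      ((hq k).2.2 e hs.2) ((hq k').2.2 e' hs'.2) h.1
    have h2 : k = k' := Subtype.ext h1.1
    subst h2
    have h3 : e = e' := Prod.ext h1.2 h.2
    subst h3
    rfl
  set δA : Tor d n × Fin d → ℝ := fun e => if h : ∃ s ∈ W, φ s = e then (q h.choose.1).2 else 1
    with hδ
  have hδφ : ∀ s ∈ W, δA (φ s) = (q s.1).2 := by
    intro s hs
    have hex : ∃ s' ∈ W, φ s' = φ s := ⟨s, hs, rfl⟩
    have h1 : δA (φ s) = (q hex.choose.1).2 := by
      simp only [hδ]
      rw [dif_pos hex]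
    have h2 := hex.choose_spec
    have h3 : hex.choose = s := hinj h2.1 hs h2.2
    rw [h1, h3]
  have hS' := hS d n p (W.image φ) δA hd hn (by
    intro e he
    rw [Finset.mem_image] at he
    obtain ⟨s, hs, rfl⟩ := he
    rw [hδφ s hs]
    exact ⟨(hq s.1).1, (hq s.1).2.1⟩)
  rw [Finset.prod_image hinj] at hS'
  have hprod : (∏ s ∈ W, ENNReal.ofReal ((128 * (d : ℝ) ^ 2 * δA (φ s)) ^ ((1 : ℝ) / (4 * d)))) =
      ∏ k, ENNReal.ofReal ((128 * (d : ℝ) ^ 2 * (q k).2) ^ (((q k).1.card : ℝ) / (4 * d))) := by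
    rw [Finset.prod_congr rfl (fun s hs => by rw [hδφ s hs])]
    rw [hW, Finset.prod_sigma]
    refine Finset.prod_congr rfl fun k _ => ?_
    simp only []
    rw [Finset.prod_const]
    have hq0 : 0 ≤ 128 * (d : ℝ) ^ 2 * (q k).2 := by
      have := (hq k).1
      positivity
    rw [← ENNReal.ofReal_pow (Real.rpow_nonneg hq0 _), ← Real.rpow_natCast, ← Real.rpow_mul hq0]
    congr 2
    ring
  rw [hprod] at hS'
  refine le_trans ?_ hS'
  refine measure_mono ?_
  rintro ψ ⟨h1, h2, h3⟩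
  refine ⟨h1, h2, ?_⟩
  intro e he
  rw [Finset.mem_image] at he
  obtain ⟨s, hs, rfl⟩ := he
  rw [hδφ s hs]
  rw [hW, Finset.mem_sigma] at hs
  have h4 := h3 s.1 s.2 hs.2
  rw [zt_add_single, ← add_assoc] at h4
  exact h4

theorem t_GP : S_GPA → S_STEEP2 → S_GP := by
  classical
  intro hG hS d hd
  obtain ⟨δ0, N, hδ0, hδ0', hN1, hG'⟩ := hG d hd
  refine ⟨δ0, hδ0, hδ0', ?_⟩
  intro ε hε
  set ε1 : ℝ := min ε (1 / 2) with hε1
  have hε1p : 0 < ε1 := lt_min hε (by norm_num)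
  have hε1l : ε1 ≤ 1 := (min_le_right _ _).trans (by norm_num)
  obtain ⟨K0, R, δ, c1, c2, c3, c4, c5, c6, c7, P, hP1, hP2, hP3⟩ :=
    hG' (ε1 ^ (N ^ d)) (by positivity)
  refine ⟨K0, R, δ, c1, c2, c3, c4, c5, c6, ?_⟩
  intro n K J p τ I hc hK1 hK2 hI
  -- residue class
  obtain ⟨c, hcN⟩ : ∃ c : Fin d → ℕ,
      I.card ≤ N ^ d * (I.filter (fun k => (fun i => k i % N) = c)).card := by
    have hmaps : ∀ k ∈ I, (fun i => k i % N) ∈ Fintype.piFinset (fun _ : Fin d => Finset.range N) := by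
      intro k _
      rw [Fintype.mem_piFinset]
      intro i
      exact Finset.mem_range.2 (Nat.mod_lt _ (by omega))
    have hcard : (Fintype.piFinset (fun _ : Fin d => Finset.range N)).card = N ^ d := by
      rw [Fintype.card_piFinset]
      simp
    have hne : (Fintype.piFinset (fun _ : Fin d => Finset.range N)).Nonempty := by
      rw [← Finset.card_pos, hcard]
      positivity
    by_contra hcon
    push Not at hcon
    have h1 := Finset.card_eq_sum_card_fiberwise (f := fun k : Site d => fun i => k i % N)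
      (s := I) (t := Fintype.piFinset (fun _ : Fin d => Finset.range N)) hmaps
    have h2 : ∑ c ∈ Fintype.piFinset (fun _ : Fin d => Finset.range N),
        N ^ d * (I.filter (fun k => (fun i => k i % N) = c)).card <
        ∑ _c ∈ Fintype.piFinset (fun _ : Fin d => Finset.range N), I.card :=
      Finset.sum_lt_sum_of_nonempty hne fun c _ => hcon c
    rw [← Finset.mul_sum, ← h1, Finset.sum_const, hcard, smul_eq_mul] at h2
    exact lt_irrefl _ h2
  set I' := I.filter (fun k => (fun i => k i % N) = c) with hI'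
  have hI'I : I' ⊆ Grid d J := (Finset.filter_subset _ _).trans hI
  have hres : ∀ k ∈ I', ∀ k' ∈ I', ∀ i, k i % N = k' i % N := by
    intro k hk k' hk' i
    rw [hI', Finset.mem_filter] at hk hk'
    have h1 := congrFun hk.2 i
    have h2 := congrFun hk'.2 i
    rw [h1, h2]
  set G : Finset ((Fin d → ℤ) × Fin d) × ℝ → ℝ := fun q =>
    (128 * (d : ℝ) ^ 2 * q.2) ^ ((q.1.card : ℝ) / (4 * d)) with hGdef
  have hG0 : ∀ q ∈ P, 0 ≤ G q := by
    intro q hq
    have := (hP1 q hq).1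
    exact Real.rpow_nonneg (by positivity) _
  -- union bound
  have hunion : vl p {ψ | ∀ k ∈ I, ψ ∉ Gd τ K k δ δ0 K0 R} ≤
      ∑ q ∈ Fintype.piFinset (fun _ : {k // k ∈ I'} => P),
        (∏ k, ENNReal.ofReal (G (q k))) * vl p Set.univ := by
    have h1 : vl p {ψ | ∀ k ∈ I, ψ ∉ Gd τ K k δ δ0 K0 R} ≤
        ∑ q ∈ Fintype.piFinset (fun _ : {k // k ∈ I'} => P),
          vl p {ψ | ∀ k : {k // k ∈ I'}, ∀ e ∈ (q k).1, 1 - (q k).2 ≤
            |ψ (ctr τ K k.1 + zt n (e.1 + Pi.single e.2 1)) - ψ (ctr τ K k.1 + zt n e.1)|} := by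
      refine le_trans (measure_mono ?_) (measure_biUnion_finset_le _ _)
      rintro ψ ⟨hL, hp, hbad⟩
      have h2 : ∀ k : {k // k ∈ I'}, ∃ q ∈ P, ∀ e ∈ q.1,
          1 - q.2 ≤ |ψ (ctr τ K k.1 + zt n (e.1 + Pi.single e.2 1)) -
            ψ (ctr τ K k.1 + zt n e.1)| := by
        intro k
        exact hP3 n K τ k.1 ψ hL (hbad k.1 (Finset.filter_subset _ _ k.2))
      choose q hq1 hq2 using h2
      rw [Set.mem_iUnion₂]
      exact ⟨q, Fintype.mem_piFinset.2 hq1, hL, hp, hq2⟩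
    refine h1.trans (Finset.sum_le_sum fun q hq => ?_)
    rw [Fintype.mem_piFinset] at hq
    refine one_choice hS hd p hc hK1 c7 I' hI'I hres q ?_
    intro k
    have h2 := hP1 (q k) (hq k)
    exact ⟨h2.1, h2.2.1, fun e he => (h2.2.2 e he).1⟩
  refine hunion.trans ?_
  rw [← Finset.sum_mul]
  refine mul_le_mul_left ?_ _
  rw [← Finset.prod_univ_sum (fun _ : {k // k ∈ I'} => P) (fun _ q => ENNReal.ofReal (G q))]
  rw [Finset.prod_const, ← ENNReal.ofReal_sum_of_nonneg hG0, Finset.card_univ, Fintype.card_coe]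
  rw [← ENNReal.ofReal_pow (Finset.sum_nonneg hG0)]
  refine ENNReal.ofReal_le_ofReal ?_
  calc (∑ q ∈ P, G q) ^ I'.card ≤ (ε1 ^ (N ^ d)) ^ I'.card :=
        pow_le_pow_left₀ (Finset.sum_nonneg hG0) hP2 _
    _ = ε1 ^ (N ^ d * I'.card) := by rw [← pow_mul]
    _ ≤ ε1 ^ I.card := pow_le_pow_of_le_one hε1p.le hε1l hcN
    _ ≤ ε ^ I.card := pow_le_pow_left₀ hε1p.le (min_le_left _ _) _

end Pool.Agent.H195.LF
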